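import Pool.Agent.H666R3.NG.Limit
import Pool.Agent.H666R3.NG.Genus

/-!
# The section conjecture for the Nori fundamental gerbe fails over finite fields

The Fermat quartic over the field with five elements is a proper, smooth, geometrically connected
curve of genus three without rational points, but the Nori fundamental gerbe of any scheme over a
finite field has rational points.
-/

set_option autoImplicit false

open CategoryTheory AlgebraicGeometry

namespace Pool.Agent.Results.MP_e6d05b_ag.NoriSectionFails

open Pool.Agent.H666R3.NG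

lemma two_ne : (2 : ZMod 5) ≠ 0 := by decide

lemma no_zero : ∀ a b : ZMod 5, 1 + a ^ 4 + b ^ 4 ≠ 0 := by decide

/-- The negation of the section conjecture for the Nori fundamental gerbe. -/
theorem result : ∃ (k : Type) (_ : Field k) (X : Sch k),
    FinGenOverPrime k ∧ IsProper X.hom ∧ SmoothOfRelativeDimension 1 X.hom ∧
    GeometricallyConnected X.hom ∧ HasGenus X.hom 3 ∧
    IsEmpty (pt k ⟶ X) ∧
    ∀ (Pi : OverSch k) (ξ : Pi.p.Fiber X) (h : IsNoriGerbe X Pi ξ),
      Nonempty (Points Pi) ∧ ¬ Function.Surjective (sigma h) := by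
  have : Fact (Nat.Prime 5) := ⟨by norm_num⟩
  refine ⟨ZMod 5, inferInstance, Over.mk (Pool.Agent.Helper198.Sch.V.str (Fermat.J (ZMod 5))),
    ?_, ?_, ?_, ?_, ?_, ?_, ?_⟩
  · refine ⟨Finset.univ, ?_⟩
    rw [Finset.coe_univ]
    exact Subfield.closure_univ
  · exact Fermat.isProper_curve (ZMod 5)
  · exact Fermat.smooth_curve (ZMod 5) two_ne
  · have h := Fermat.geometricallyIntegral_curve (ZMod 5) two_ne
    refine ⟨?_⟩
    intro K _ y Z fst snd hp
    have hZ : IsIntegral Z := h.geometrically_isIntegral y fst snd hp
    infer_instance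
  · exact Fermat.hasGenus_curve (ZMod 5)
  · exact ⟨fun a => Fermat.no_section (ZMod 5) no_zero a.left⟩
  · intro Pi ξ h
    obtain ⟨x⟩ := exists_point_profinite h.profinite
    have y : Points Pi := Quotient.mk _ x
    refine ⟨⟨y⟩, fun hs => ?_⟩
    obtain ⟨a, _⟩ := hs y
    exact Fermat.no_section (ZMod 5) no_zero a.left

end Pool.Agent.Results.MP_e6d05b_ag.NoriSectionFails
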